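import Mathlib
import Pool.Agent.R732.DD.Defs

set_option autoImplicit false

/-!
# The order of the upper directed `p`-domination number of `H(n,r)` for `r ≤ 2 ^ (p + 1) - 2`

For `1 ≤ p < r ≤ 2 ^ (p + 1) - 2`, in particular for all `r` and `p = r - 1`, the order of
`Γ_p(H(n,r))` is `log n`.
-/

namespace Pool.Agent.Results.MP_869403_co.LogarithmicOrder

open Finset Filter
open Pool.Agent.R732.DD

/-! ### A matrix -/

lemma card_rows (N k : ℕ) (g : Fin k → Fin N) :
    2 ^ N ≤ 2 ^ k * ((univ : Finset (Fin N → Bool)).filter (fun ρ => ∀ j, ρ (g j) = false)).card := by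
  classical
  have h : (univ : Finset (Fin N → Bool)).card ≤ ((univ : Finset (Fin k → Bool)) ×ˢ
      ((univ : Finset (Fin N → Bool)).filter (fun ρ => ∀ j, ρ (g j) = false))).card := by
    refine card_le_card_of_injOn
      (fun ρ => (fun j => ρ (g j), fun i => if i ∈ univ.image g then false else ρ i)) ?_ ?_
    · intro ρ _
      rw [mem_coe, mem_product]
      refine ⟨mem_univ _, ?_⟩
      rw [mem_filter]
      refine ⟨mem_univ _, fun j => ?_⟩
      show (if g j ∈ univ.image g then false else ρ (g j)) = false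
      rw [if_pos (mem_image_of_mem g (mem_univ j))]
    · intro ρ _ σ _ h
      simp only [Prod.mk.injEq] at h
      funext i
      by_cases hi : i ∈ univ.image g
      · obtain ⟨j, -, rfl⟩ := mem_image.1 hi
        exact congrFun h.1 j
      · have h2 := congrFun h.2 i
        rw [if_neg hi, if_neg hi] at h2
        exact h2
  rw [card_product, card_univ, card_univ] at h
  simpa using h

lemma card_bad (N k : ℕ) (g : Fin k → Fin N) :
    (((univ : Finset (Fin N → Fin N → Bool)).filter (fun M => ∀ i, ¬ ∀ j, M i (g j) = false)).card : ℝ) ≤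
      (2 ^ N * (1 - 1 / 2 ^ k)) ^ N := by
  classical
  have h1 : (univ : Finset (Fin N → Fin N → Bool)).filter (fun M => ∀ i, ¬ ∀ j, M i (g j) = false) =
      Fintype.piFinset (fun _ : Fin N => (univ : Finset (Fin N → Bool)).filter
        (fun ρ => ¬ ∀ j, ρ (g j) = false)) := by
    ext M
    simp only [mem_filter, mem_univ, true_and, Fintype.mem_piFinset]
  rw [h1, Fintype.card_piFinset, prod_const, card_univ, Fintype.card_fin, Nat.cast_pow]
  have h2 := card_rows N k g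
  have h3 := card_filter_add_card_filter_not (s := (univ : Finset (Fin N → Bool)))
    (fun ρ => ∀ j, ρ (g j) = false)
  rw [card_univ] at h3
  have h4 : Fintype.card (Fin N → Bool) = 2 ^ N := by simp
  rw [h4] at h3
  set z := ((univ : Finset (Fin N → Bool)).filter (fun ρ => ∀ j, ρ (g j) = false)).card with hz
  set y := ((univ : Finset (Fin N → Bool)).filter (fun ρ => ¬ ∀ j, ρ (g j) = false)).card with hy
  have h5 : (z : ℝ) + y = 2 ^ N := by exact_mod_cast h3
  have h6 : (2 : ℝ) ^ N ≤ 2 ^ k * z := by exact_mod_cast h2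
  apply pow_le_pow_left₀ (Nat.cast_nonneg _)
  have h7 : (2 : ℝ) ^ N / 2 ^ k ≤ z := by
    rw [div_le_iff₀ (by positivity)]
    linarith
  have h8 : (2 : ℝ) ^ N * (1 - 1 / 2 ^ k) = 2 ^ N - 2 ^ N / 2 ^ k := by ring
  rw [h8]
  linarith

lemma exists_matrix (k N : ℕ) (hN : 2 * (N : ℝ) ^ k * (1 - 1 / 2 ^ k) ^ N < 1) :
    ∃ M : Fin N → Fin N → Bool, (∀ f : Fin k → Fin N, ∃ j, ∀ i, M (f i) j = true) ∧
      ∀ g : Fin k → Fin N, ∃ i, ∀ j, M i (g j) = false := by
  classical
  by_contra hcon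
  set b : ℝ := (2 ^ N * (1 - 1 / 2 ^ k)) ^ N with hb
  let B0 : (Fin k → Fin N) → Finset (Fin N → Fin N → Bool) := fun g =>
    univ.filter (fun M => ∀ i, ¬ ∀ j, M i (g j) = false)
  let B1 : (Fin k → Fin N) → Finset (Fin N → Fin N → Bool) := fun g =>
    univ.filter (fun M => ∀ j, ¬ ∀ i, M (g i) j = true)
  have h0 : ∀ g, ((B0 g).card : ℝ) ≤ b := fun g => card_bad N k g
  have h1 : ∀ g, ((B1 g).card : ℝ) ≤ b := by
    intro g
    refine le_trans ?_ (h0 g)
    rw [Nat.cast_le]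
    refine card_le_card_of_injOn (fun M i j => !(M j i)) ?_ ?_
    · intro M hM
      rw [mem_coe, mem_filter] at hM
      rw [mem_coe, mem_filter]
      refine ⟨mem_univ _, fun i h => hM.2 i (fun j => ?_)⟩
      have h2 := h j
      simpa using h2
    · intro M _ M' _ h
      funext i j
      have h2 := congrFun (congrFun h j) i
      simpa using h2
  have hcov : (univ : Finset (Fin N → Fin N → Bool)) ⊆
      (univ : Finset (Fin k → Fin N)).biUnion B1 ∪ (univ : Finset (Fin k → Fin N)).biUnion B0 := by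
    intro M _
    by_contra h
    rw [mem_union, not_or] at h
    apply hcon
    refine ⟨M, fun f => ?_, fun g => ?_⟩
    · by_contra h2
      push Not at h2
      apply h.1
      rw [mem_biUnion]
      refine ⟨f, mem_univ _, ?_⟩
      rw [mem_filter]
      refine ⟨mem_univ _, fun j h3 => ?_⟩
      obtain ⟨i, hi⟩ := h2 j
      exact hi (h3 i)
    · by_contra h2
      push Not at h2
      apply h.2
      rw [mem_biUnion]
      refine ⟨g, mem_univ _, ?_⟩
      rw [mem_filter]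
      refine ⟨mem_univ _, fun i h3 => ?_⟩
      obtain ⟨j, hj⟩ := h2 i
      exact hj (h3 j)
  have h2 := (card_le_card hcov).trans (card_union_le _ _)
  have h3 : ∀ B : (Fin k → Fin N) → Finset (Fin N → Fin N → Bool), (∀ g, ((B g).card : ℝ) ≤ b) →
      (((univ : Finset (Fin k → Fin N)).biUnion B).card : ℝ) ≤ (N : ℝ) ^ k * b := by
    intro B hB
    calc (((univ : Finset (Fin k → Fin N)).biUnion B).card : ℝ) ≤
          ((∑ g : Fin k → Fin N, (B g).card : ℕ) : ℝ) := by exact_mod_cast card_biUnion_le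
      _ ≤ ∑ g : Fin k → Fin N, b := by
          rw [Nat.cast_sum]
          exact sum_le_sum fun g _ => hB g
      _ = (N : ℝ) ^ k * b := by
          rw [sum_const, card_univ, nsmul_eq_mul]
          simp
  have h4 : ((univ : Finset (Fin N → Fin N → Bool)).card : ℝ) = (2 ^ N) ^ N := by
    rw [card_univ]
    simp
  have h5 : (((univ : Finset (Fin N → Fin N → Bool)).card : ℕ) : ℝ) ≤ (N : ℝ) ^ k * b + (N : ℝ) ^ k * b := by
    refine le_trans (by exact_mod_cast h2) (add_le_add (h3 B1 h1) (h3 B0 h0))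
  rw [h4, hb, mul_pow] at h5
  have h6 : (0 : ℝ) < (2 ^ N) ^ N := by positivity
  nlinarith

lemma exists_matrix' (k : ℕ) (hk : 1 ≤ k) : ∃ N : ℕ, 1 ≤ N ∧ N ≤ 8 ^ k ∧
    ∃ M : Fin N → Fin N → Bool, (∀ f : Fin k → Fin N, ∃ j, ∀ i, M (f i) j = true) ∧
      ∀ g : Fin k → Fin N, ∃ i, ∀ j, M i (g j) = false := by
  obtain ⟨j, rfl⟩ : ∃ j, k = j + 1 := ⟨k - 1, by omega⟩
  have hj : j + 1 ≤ 2 ^ j := Nat.lt_two_pow_self
  set k := j + 1 with hkj
  have h1 : 4 * k ^ 2 * 2 ^ k ≤ 8 ^ k := by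
    have e : 8 ^ k = 4 * (2 ^ j) ^ 2 * 2 ^ k := by
      rw [hkj, show (8 : ℕ) = 2 ^ 3 by norm_num, ← pow_mul, ← pow_mul,
        show (4 : ℕ) = 2 ^ 2 by norm_num, ← pow_add, ← pow_add]
      congr 1
      ring
    rw [e]
    gcongr
  have hpos : 1 ≤ 4 * k ^ 2 * 2 ^ k := Nat.succ_le_of_lt (by positivity)
  refine ⟨4 * k ^ 2 * 2 ^ k, hpos, h1, exists_matrix k _ ?_⟩
  set N := 4 * k ^ 2 * 2 ^ k with hN
  have h3 : (0 : ℝ) ≤ 1 - 1 / 2 ^ k := by
    rw [sub_nonneg, div_le_one (by positivity)]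
    exact one_le_pow₀ (by norm_num)
  have h2 : (1 - 1 / 2 ^ k : ℝ) ^ N ≤ Real.exp (-(4 * k ^ 2 : ℕ)) := by
    calc (1 - 1 / 2 ^ k : ℝ) ^ N ≤ (Real.exp (-(1 / 2 ^ k))) ^ N :=
          pow_le_pow_left₀ h3 (Real.one_sub_le_exp_neg _) _
      _ = Real.exp (-(4 * k ^ 2 : ℕ)) := by
          rw [← Real.exp_nat_mul]
          congr 1
          rw [hN]
          push_cast
          field_simp
  have h7 : (0 : ℝ) ≤ (1 - 1 / 2 ^ k) ^ N := pow_nonneg h3 _
  have h4 : 2 * (N : ℝ) ^ k ≤ 2 ^ (4 * k ^ 2) := by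
    have h5 : 2 * N ^ k ≤ 2 ^ (4 * k ^ 2) := by
      calc 2 * N ^ k ≤ 2 * (8 ^ k) ^ k := by gcongr
        _ = 2 ^ (3 * k ^ 2 + 1) := by
          rw [show (8 : ℕ) = 2 ^ 3 by norm_num, ← pow_mul, ← pow_mul, pow_succ' 2 (3 * k ^ 2)]
          congr 2
          ring
        _ ≤ 2 ^ (4 * k ^ 2) := by
          apply Nat.pow_le_pow_right (by norm_num)
          have : 1 ≤ k ^ 2 := Nat.one_le_pow _ _ (by omega)
          omega
    exact_mod_cast h5
  have h6 : (2 : ℝ) ^ (4 * k ^ 2) < Real.exp (4 * k ^ 2 : ℕ) := by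
    rw [← Real.exp_one_pow]
    apply pow_lt_pow_left₀ _ (by norm_num) (by positivity)
    have := Real.exp_one_gt_d9
    linarith
  calc 2 * (N : ℝ) ^ k * (1 - 1 / 2 ^ k) ^ N ≤ 2 ^ (4 * k ^ 2) * Real.exp (-(4 * k ^ 2 : ℕ)) := by
        gcongr
    _ < Real.exp (4 * k ^ 2 : ℕ) * Real.exp (-(4 * k ^ 2 : ℕ)) := by
        apply mul_lt_mul_of_pos_right h6 (Real.exp_pos _)
    _ = 1 := by rw [← Real.exp_add, add_neg_cancel, Real.exp_zero]

lemma exists_enum {V : Type} [Nonempty V] (k : ℕ) (S : Finset V) (hS : S.card ≤ k) :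
    ∃ f : Fin k → V, ∀ s ∈ S, ∃ i, f i = s := by
  classical
  rcases S.eq_empty_or_nonempty with rfl | ⟨s0, hs0⟩
  · exact ⟨fun _ => Classical.arbitrary V, fun s hs => absurd hs (notMem_empty s)⟩
  · let e := S.equivFin
    refine ⟨fun i => if h : (i : ℕ) < S.card then (e.symm ⟨i, h⟩).1 else s0, ?_⟩
    intro s hs
    refine ⟨⟨(e ⟨s, hs⟩ : ℕ), lt_of_lt_of_le (e ⟨s, hs⟩).2 hS⟩, ?_⟩
    simp

/-- the lower bound -/
theorem lower {p r : ℕ} (k n : ℕ) (hp : 1 ≤ p) (hpr : p ≤ r) (hr : r + 1 < 2 ^ (p + 1)) (_hrn : r ≤ n)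
    (hn : 64 ^ k ≤ n) : k + 1 ≤ Gam p r n := by
  classical
  rcases Nat.eq_zero_or_pos k with rfl | hk
  · refine of_rel (fun _ _ => False) (fun _ h => h) (fun S hS => ?_) (fun E hE => ?_)
    · rw [Nat.le_zero, card_eq_zero] at hS
      subst hS
      exact ⟨⟨0, by omega⟩, fun s hs => absurd hs (notMem_empty s)⟩
    · obtain ⟨F, hF, hFc⟩ := exists_subset_card_eq (by rw [hE]; exact hpr : p ≤ E.card)
      refine ⟨F, hF, hFc, fun u _ h => ?_⟩
      obtain ⟨f, hf⟩ := card_pos.1 (by rw [hFc]; exact hp : 0 < F.card)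
      exact h f hf
  · obtain ⟨N, hN1, hN, M, hM1, hM0⟩ := exists_matrix' k hk
    have : Nonempty (Fin N × Fin N) := ⟨(⟨0, hN1⟩, ⟨0, hN1⟩)⟩
    let R : Fin N × Fin N → Fin N × Fin N → Prop := fun u s => M s.1 u.2 = true ∧ M u.1 s.2 = false
    have hirr : ∀ a, ¬ R a a := fun a h => by
      have h1 := h.1
      rw [h.2] at h1
      exact Bool.false_ne_true h1
    have hanti : ∀ a b, R a b → ¬ R b a := fun a b h h' => by
      have h1 := h.1
      rw [h'.2] at h1
      exact Bool.false_ne_true h1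
    refine of_rel' (V := Fin N × Fin N) R hirr ?_ ?_ ?_
    · rw [Fintype.card_prod, Fintype.card_fin]
      calc N * N ≤ 8 ^ k * 8 ^ k := Nat.mul_le_mul hN hN
        _ = 64 ^ k := by rw [← mul_pow]; norm_num
        _ ≤ n := hn
    · intro S hS
      obtain ⟨f, hf⟩ := exists_enum k S hS
      obtain ⟨j, hj⟩ := hM1 (fun i => (f i).1)
      obtain ⟨i, hi⟩ := hM0 (fun i => (f i).2)
      refine ⟨(i, j), fun s hs => ?_⟩
      obtain ⟨t, rfl⟩ := hf s hs
      exact ⟨hj t, hi t⟩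
    · intro π E hE
      exact undominated (fun a b => R (π a) (π b)) (fun a => hirr _) (fun a b => hanti _ _) p E
        (by rw [hE]; exact hpr) (by rw [hE]; exact hr)

/-! ### The upper bound -/

section Upper

variable {r n : ℕ}

/-- a good next set -/
lemma greedy (D : Orientation r n) (hr : 1 ≤ r) (U : Finset (Fin n)) (hU : r ≤ U.card) :
    ∃ F ⊆ U, F.card = r - 1 ∧ ∃ W ⊆ U, Disjoint F W ∧ ((U.card : ℝ) - r + 1) / r ≤ W.card ∧
      ∀ u ∈ W, ∃ E : Edge r n, u ∈ E.1 ∧ ∀ i : Fin r, (i : ℕ) < r - 1 → (D E i).1 ∈ F := by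
  classical
  obtain ⟨u0, hu0⟩ := card_pos.1 (by omega : 0 < U.card)
  -- the last vertex
  let l : Finset (Fin n) → Fin n := fun E => if h : E.card = r then (D ⟨E, h⟩ ⟨r - 1, by omega⟩).1 else u0
  have hl : ∀ E : Finset (Fin n), E.card = r → l E ∈ E := by
    intro E hE
    show (if h : E.card = r then (D ⟨E, h⟩ ⟨r - 1, by omega⟩).1 else u0) ∈ E
    rw [dif_pos hE]
    exact (D ⟨E, hE⟩ ⟨r - 1, by omega⟩).2
  have hfirst : ∀ E : Finset (Fin n), ∀ hE : E.card = r, ∀ i : Fin r, (i : ℕ) < r - 1 →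
      (D ⟨E, hE⟩ i).1 ∈ E.erase (l E) := by
    intro E hE i hi
    rw [mem_erase]
    refine ⟨fun h => ?_, (D ⟨E, hE⟩ i).2⟩
    have h1 : l E = (D ⟨E, hE⟩ ⟨r - 1, by omega⟩).1 := by
      show (if h : E.card = r then (D ⟨E, h⟩ ⟨r - 1, by omega⟩).1 else u0) = _
      rw [dif_pos hE]
    rw [h1] at h
    have h2 := (D ⟨E, hE⟩).injective (Subtype.ext h)
    rw [h2] at hi
    simp at hi
  have hmaps : ∀ E ∈ powersetCard r U, E.erase (l E) ∈ powersetCard (r - 1) U := by
    intro E hE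
    rw [mem_powersetCard] at hE ⊢
    exact ⟨(erase_subset _ _).trans hE.1, by rw [card_erase_of_mem (hl E hE.2), hE.2]⟩
  have hne : (powersetCard (r - 1) U).Nonempty := powersetCard_nonempty.2 (by omega)
  obtain ⟨F, hF, hcard⟩ := exists_le_card_fiber_of_nsmul_le_card_of_maps_to
    (b := ((U.card : ℝ) - r + 1) / r) hmaps hne (by
      rw [card_powersetCard, card_powersetCard, nsmul_eq_mul]
      have h1 : U.card.choose r * r = U.card.choose (r - 1) * (U.card - (r - 1)) := by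
        obtain ⟨s, rfl⟩ : ∃ s, r = s + 1 := ⟨r - 1, by omega⟩
        exact Nat.choose_succ_right_eq U.card s
      have h2 : (U.card.choose r : ℝ) * r = U.card.choose (r - 1) * ((U.card : ℝ) - r + 1) := by
        have h3 : ((U.card - (r - 1) : ℕ) : ℝ) = (U.card : ℝ) - r + 1 := by
          rw [Nat.cast_sub (by omega), Nat.cast_sub hr]
          push_cast
          ring
        rw [← h3]
        exact_mod_cast h1
      have hr0 : (0 : ℝ) < r := by exact_mod_cast hr
      rw [← mul_div_assoc, div_le_iff₀ hr0, h2])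
  rw [mem_powersetCard] at hF
  refine ⟨F, hF.1, hF.2, ((powersetCard r U).filter (fun E => E.erase (l E) = F)).image l, ?_, ?_, ?_, ?_⟩
  · intro u hu
    obtain ⟨E, hE, rfl⟩ := mem_image.1 hu
    rw [mem_filter, mem_powersetCard] at hE
    exact hE.1.1 (hl E hE.1.2)
  · rw [disjoint_left]
    intro u huF hu
    obtain ⟨E, hE, rfl⟩ := mem_image.1 hu
    rw [mem_filter] at hE
    rw [← hE.2] at huF
    exact (notMem_erase _ _) huF
  · rw [card_image_of_injOn]
    · exact hcard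
    · intro E hE E' hE' h
      rw [mem_coe, mem_filter, mem_powersetCard] at hE hE'
      rw [← insert_erase (hl E hE.1.2), ← insert_erase (hl E' hE'.1.2), hE.2, hE'.2, h]
  · intro u hu
    obtain ⟨E, hE, rfl⟩ := mem_image.1 hu
    rw [mem_filter, mem_powersetCard] at hE
    obtain ⟨⟨hEU, hEr⟩, hEF⟩ := hE
    refine ⟨⟨E, hEr⟩, hl E hEr, fun i hi => ?_⟩
    have h := hfirst E hEr i hi
    rw [hEF] at h
    exact h

lemma step_bound {r : ℕ} (hr : 2 ≤ r) {m m' : ℕ} (hm : r ≤ m) (h : (m' : ℝ) ≤ (m : ℝ) * (1 - 1 / r)) :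
    1 + r * Real.log m' ≤ r * Real.log m := by
  have hr0 : (2 : ℝ) ≤ r := by exact_mod_cast hr
  have hm0 : (2 : ℝ) ≤ m := by exact_mod_cast hr.trans hm
  rcases Nat.eq_zero_or_pos m' with rfl | h'
  · rw [Nat.cast_zero, Real.log_zero, mul_zero, add_zero]
    have h1 : (1 : ℝ) / 2 ≤ Real.log 2 := by
      have := Real.log_two_gt_d9
      linarith
    have h2 : Real.log 2 ≤ Real.log m := Real.log_le_log (by norm_num) hm0
    nlinarith
  · have h0 : (0 : ℝ) < m' := by exact_mod_cast h'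
    have h1 : (m' : ℝ) ≤ m * Real.exp (-(1 / r)) := by
      refine h.trans ?_
      gcongr
      exact Real.one_sub_le_exp_neg _
    have h2 : Real.log m' ≤ Real.log m - 1 / r := by
      have h3 := Real.log_le_log h0 h1
      rw [Real.log_mul (by linarith) (Real.exp_pos _).ne', Real.log_exp] at h3
      linarith
    have h4 : (r : ℝ) * Real.log m' ≤ r * (Real.log m - 1 / r) := by gcongr
    have h5 : (r : ℝ) * (Real.log m - 1 / r) = r * Real.log m - 1 := by
      field_simp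
    linarith

lemma cover (D : Orientation r n) (hr : 2 ≤ r) : ∀ (m : ℕ) (U : Finset (Fin n)), U.card = m →
    ∃ S : Finset (Fin n), (S.card : ℝ) ≤ (r - 1 : ℕ) * (2 + r * Real.log m) ∧
      ∀ u ∈ U, u ∉ S → ∃ E : Edge r n, u ∈ E.1 ∧ ∀ i : Fin r, (i : ℕ) < r - 1 → (D E i).1 ∈ S := by
  classical
  intro m
  induction m using Nat.strong_induction_on with
  | _ m ih =>
    intro U hU
    have hlog : 0 ≤ (r : ℝ) * Real.log m := mul_nonneg (Nat.cast_nonneg _) (Real.log_natCast_nonneg m)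
    rcases Nat.lt_or_ge m r with hm | hm
    · refine ⟨U, ?_, fun u hu h => absurd hu h⟩
      have h1 : (U.card : ℝ) ≤ (r - 1 : ℕ) := by
        rw [Nat.cast_le, hU]
        omega
      have h2 : (0 : ℝ) ≤ (r - 1 : ℕ) := Nat.cast_nonneg _
      nlinarith
    · obtain ⟨F, hFU, hF, W, hWU, hFW, hW, hdom⟩ := greedy D (by omega) U (by rw [hU]; exact hm)
      have hc : (U \ (F ∪ W)).card + ((r - 1) + W.card) = m := by
        have h1 := card_sdiff_add_card_eq_card (union_subset hFU hWU)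
        rw [card_union_of_disjoint hFW, hF, hU] at h1
        exact h1
      obtain ⟨S, hS, hSd⟩ := ih (U \ (F ∪ W)).card (by omega) _ rfl
      refine ⟨F ∪ S, ?_, ?_⟩
      · have h1 : ((F ∪ S).card : ℝ) ≤ (r - 1 : ℕ) + S.card := by
          have := card_union_le F S
          rw [hF] at this
          exact_mod_cast this
        have hr0 : (2 : ℝ) ≤ r := by exact_mod_cast hr
        have h2 : (((U \ (F ∪ W)).card : ℕ) : ℝ) ≤ (m : ℝ) * (1 - 1 / r) := by
          have h3 : (((U \ (F ∪ W)).card : ℕ) : ℝ) + (((r - 1 : ℕ) : ℝ) + W.card) = m := by exact_mod_cast hc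
          have h4 : ((r - 1 : ℕ) : ℝ) = (r : ℝ) - 1 := by
            rw [Nat.cast_sub (by omega), Nat.cast_one]
          rw [hU] at hW
          have h5 : ((m : ℝ) - r + 1) / r = m / r - 1 + 1 / r := by
            field_simp
          have h6 : (m : ℝ) * (1 - 1 / r) = m - m / r := by ring
          have h7 : 0 ≤ 1 / (r : ℝ) := by positivity
          rw [h5] at hW
          rw [h6]
          linarith
        have h3 := step_bound hr hm h2
        have h4 : (0 : ℝ) ≤ (r - 1 : ℕ) := Nat.cast_nonneg _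
        nlinarith
      · intro u hu huS
        rw [mem_union, not_or] at huS
        by_cases huW : u ∈ W
        · obtain ⟨E, hE, hEF⟩ := hdom u huW
          exact ⟨E, hE, fun i hi => mem_union_left _ (hEF i hi)⟩
        · obtain ⟨E, hE, hES⟩ := hSd u (by
            rw [Finset.mem_sdiff, Finset.mem_union]
            exact ⟨hu, fun h => h.elim huS.1 huW⟩) huS.2
          exact ⟨E, hE, fun i hi => mem_union_right _ (hES i hi)⟩

end Upper

/-- the upper bound -/
theorem upper {p r : ℕ} (n : ℕ) (hr : 2 ≤ r) (hpr : p + 1 ≤ r) :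
    (Gam p r n : ℝ) ≤ (r - 1 : ℕ) * (2 + r * Real.log n) := by
  classical
  have h0 : (0 : ℝ) ≤ (r - 1 : ℕ) * (2 + r * Real.log n) := by
    have := Real.log_natCast_nonneg n
    positivity
  have h1 : Gam p r n ≤ ⌊((r - 1 : ℕ) : ℝ) * (2 + r * Real.log n)⌋₊ := by
    apply Gam_le
    intro D
    obtain ⟨S, hS, hd⟩ := cover D hr n univ (by rw [card_univ, Fintype.card_fin])
    refine (gam_le_of D S ?_).trans (Nat.le_floor hS)
    intro u hu
    obtain ⟨E, hE, hi⟩ := hd u (mem_univ u) hu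
    exact ⟨E, hE, fun i hip => hi i (by omega)⟩
  calc (Gam p r n : ℝ) ≤ (⌊((r - 1 : ℕ) : ℝ) * (2 + r * Real.log n)⌋₊ : ℝ) := by exact_mod_cast h1
    _ ≤ (r - 1 : ℕ) * (2 + r * Real.log n) := Nat.floor_le h0

/-- **The order of `Γ_p(H(n,r))`.** Let `1 ≤ p < r ≤ 2 ^ (p + 1) - 2` (for instance `p = r - 1 ≥ 1`, or any
`r ≥ 3` and `p ≥ log₂ (r + 2) - 1`). Then for all `n ≥ r`
`log n / 5 ≤ Γ_p(H(n,r)) ≤ (r - 1) (2 + r log n)`; so `Γ_p(H(n,r)) = Θ(log n)`. -/
theorem result (p r : ℕ) (hp : 1 ≤ p) (hpr : p < r) (hr : r + 2 ≤ 2 ^ (p + 1)) :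
    (∀ n : ℕ, r ≤ n → Real.log n / 5 ≤ (Gam p r n : ℝ) ∧
      (Gam p r n : ℝ) ≤ (r - 1) * (2 + r * Real.log n)) ∧
    (fun n : ℕ => (Gam p r n : ℝ)) =Θ[atTop] (fun n : ℕ => Real.log n) := by
  have hr2 : 2 ≤ r := by omega
  have key : ∀ n : ℕ, r ≤ n → Real.log n / 5 ≤ (Gam p r n : ℝ) ∧
      (Gam p r n : ℝ) ≤ (r - 1) * (2 + r * Real.log n) := by
    intro n hn
    refine ⟨?_, ?_⟩
    · have hn0 : n ≠ 0 := by omega
      have h1 := lower (p := p) (r := r) (Nat.log 64 n) n hp hpr.le (by omega) hn (Nat.pow_log_le_self 64 hn0)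
      have h2 : n < 64 ^ (Nat.log 64 n + 1) := Nat.lt_pow_succ_log_self (by norm_num) n
      have h3 : Real.log n ≤ ((Nat.log 64 n + 1 : ℕ) : ℝ) * Real.log 64 := by
        rw [← Real.log_pow]
        apply Real.log_le_log (by exact_mod_cast (by omega : 0 < n))
        exact_mod_cast h2.le
      have h4 : Real.log 64 ≤ 5 := by
        rw [show (64 : ℝ) = 2 ^ 6 by norm_num, Real.log_pow]
        have := Real.log_two_lt_d9
        push_cast
        linarith
      have h5 : ((Nat.log 64 n + 1 : ℕ) : ℝ) ≤ Gam p r n := by exact_mod_cast h1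
      have h6 : (0 : ℝ) ≤ ((Nat.log 64 n + 1 : ℕ) : ℝ) := Nat.cast_nonneg _
      nlinarith
    · have h1 := upper (p := p) (r := r) n hr2 hpr
      rwa [Nat.cast_sub (by omega), Nat.cast_one] at h1
  refine ⟨key, ?_, ?_⟩
  · -- upper bound
    refine Asymptotics.IsBigO.of_bound ((r - 1 : ℝ) * (4 + r)) ?_
    filter_upwards [eventually_ge_atTop r] with n hn
    have h1 := (key n hn).2
    have hn2 : (2 : ℝ) ≤ n := by exact_mod_cast hr2.trans hn
    have h2 : (1 : ℝ) / 2 ≤ Real.log n := by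
      have h3 := Real.log_two_gt_d9
      have h4 := Real.log_le_log (by norm_num) hn2
      linarith
    have hr1 : (0 : ℝ) ≤ (r : ℝ) - 1 := by
      have : (2 : ℝ) ≤ r := by exact_mod_cast hr2
      linarith
    rw [Real.norm_of_nonneg (Nat.cast_nonneg _), Real.norm_of_nonneg (by linarith)]
    refine h1.trans ?_
    rw [mul_assoc]
    apply mul_le_mul_of_nonneg_left _ hr1
    linarith
  · refine Asymptotics.IsBigO.of_bound 5 ?_
    filter_upwards [eventually_ge_atTop r] with n hn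
    have h1 := (key n hn).1
    rw [Real.norm_of_nonneg (Nat.cast_nonneg _), Real.norm_of_nonneg (Real.log_natCast_nonneg n)]
    linarith

end Pool.Agent.Results.MP_869403_co.LogarithmicOrder
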